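import Pool.Agent.Helper46.RO.Sim
import Pool.Agent.Helper11.Gap.Final

/-!
# Goals: dynamics and the theorem on metabelian quotients
-/

namespace Pool.Agent.Helper46.RO

open scoped NNReal
open Pool.Agent.Helper11.Gap (Sym Big)

universe u

/-- Growth from a focal action of the derived subgroup. -/
def GoalDyn : Prop := ∀ (G : Type u) [Group G] [DecidableEq G] (T : Finset G), Sym T →
  Subgroup.closure (T : Set G) = ⊤ → ∀ (E : Type u) (R : SimRep (commutator G) E ℝ≥0),
    (∃ n ∈ commutator G, R.μ n ≠ 1) → (∀ z, ∃ n ∈ commutator G, R.act n z ≠ z) → Big T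

/-- Growth of a group with a metabelian quotient whose kernel is not finitely generated. -/
def GoalA : Prop := ∀ (G : Type u) [Group G] [DecidableEq G] (T : Finset G), Sym T →
  Subgroup.closure (T : Set G) = ⊤ → ∀ (N : Subgroup G) [N.Normal],
    ⁅N ⊔ commutator G, N ⊔ commutator G⁆ ≤ N → ¬ N.FG → Big T

end Pool.Agent.Helper46.RO
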