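import Pool.Agent.Helper46.RO.Base
import Pool.Agent.Helper46.RO.Goals3
import Pool.Agent.Helper29.RO.A2
import Pool.Agent.Helper7.RO.E2
import Pool.Agent.Helper72.RO.E3
import Pool.Agent.Helper33.RO.E4
import Pool.Agent.Helper41.RO.E5
import Pool.Agent.Helper26.RO.E6
import Pool.Agent.Helper9.RO.E7
import Pool.Agent.Helper47.RO.P1
import Pool.Agent.Helper10.RO.P2
import Pool.Agent.Helper75.RO.P3
import Pool.Agent.Helper62.RO.A1
import Pool.Agent.Helper5.RO.Main

/-!
# Groups with a metabelian quotient whose kernel is not finitely generated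
-/

namespace Pool.Agent.Helper46.RO

open scoped NNReal
open Pool.Agent.Helper11.Gap (Sym Big)

universe u

/-- The theorem on kernels. -/
theorem kernels : GoalA2.{u} :=
  Pool.Agent.Helper29.RO.A2 Pool.Agent.Helper7.RO.E2 Pool.Agent.Helper72.RO.E3
    (Pool.Agent.Helper33.RO.E4 Pool.Agent.Helper72.RO.E3) Pool.Agent.Helper41.RO.E5
    Pool.Agent.Helper26.RO.E6 Pool.Agent.Helper9.RO.E7 Pool.Agent.Helper47.RO.P1
    Pool.Agent.Helper10.RO.P2 Pool.Agent.Helper75.RO.P3 Pool.Agent.Helper62.RO.A1

theorem goalDyn : GoalDyn.{u} := by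
  intro G _ _ T hT hgen E R H1 H2
  exact Pool.Agent.Helper5.RO.dynamics hT hgen R H1 H2

/-- A subgroup containing the derived subgroup is finitely generated if the derived subgroup is. -/
theorem fg_of_commutator_le {G : Type*} [Group G] [hG : Group.FG G] (h1 : (commutator G).FG)
    (H : Subgroup G) (hH : commutator G ≤ H) : H.FG := by
  classical
  have hA : Group.FG (Abelianization G) := Group.fg_of_surjective
    (f := Abelianization.of) (QuotientGroup.mk'_surjective _)
  have hA' : AddGroup.FG (Additive (Abelianization G)) := inferInstance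
  have hfin : Module.Finite ℤ (Additive (Abelianization G)) := inferInstance
  have hN : IsNoetherian ℤ (Additive (Abelianization G)) := inferInstance
  have h2 : (H.map (Abelianization.of)).FG := by
    rw [Subgroup.fg_iff_add_fg]
    have h3 := hN.noetherian (AddSubgroup.toIntSubmodule
      (Subgroup.toAddSubgroup (H.map (Abelianization.of))))
    rw [Submodule.fg_iff_addSubgroup_fg] at h3
    exact h3
  obtain ⟨S', hS'⟩ := h2
  have h4 : ∀ s ∈ S', ∃ h ∈ H, Abelianization.of h = s := by
    intro s hs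
    have : s ∈ H.map (Abelianization.of) := by
      rw [← hS']
      exact Subgroup.subset_closure hs
    exact this
  choose! f hf hf' using h4
  have hS : H = Subgroup.closure ((S'.image f : Finset G) : Set G) ⊔ commutator G := by
    apply le_antisymm
    · intro h hh
      have h5 : Abelianization.of h ∈ (Subgroup.closure ((S'.image f : Finset G) : Set G)).map
          Abelianization.of := by
        rw [MonoidHom.map_closure]
        have h6 : Abelianization.of h ∈ Subgroup.closure (S' : Set (Abelianization G)) := by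
          rw [hS']
          exact ⟨h, hh, rfl⟩
        refine Subgroup.closure_mono ?_ h6
        intro s hs
        refine ⟨f s, ?_, hf' s hs⟩
        exact Finset.mem_coe.2 (Finset.mem_image_of_mem f (Finset.mem_coe.1 hs))
      obtain ⟨y, hy, hyh⟩ := h5
      have h7 : y⁻¹ * h ∈ commutator G := by
        rw [← Abelianization.ker_of G, MonoidHom.mem_ker, map_mul, map_inv, hyh]
        exact inv_mul_cancel _
      have e : h = y * (y⁻¹ * h) := by group
      rw [e]
      exact Subgroup.mul_mem_sup hy h7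
    · apply sup_le _ hH
      rw [Subgroup.closure_le]
      intro s hs
      obtain ⟨s', hs', rfl⟩ := Finset.mem_image.1 (Finset.mem_coe.1 hs)
      exact hf s' hs'
  rw [hS]
  exact Subgroup.FG.sup ⟨_, rfl⟩ h1

variable {G : Type u} [Group G]

open Classical in
/-- The restriction of a focal action of `L ≥ [G, G]` to `[G, G]`. -/
noncomputable def Focal.rep {L : Subgroup G} (hL : commutator G ≤ L) {χ : L → ℝ}
    (hχ : IsChar χ) (F : Focal L χ) (pt : F.E) : SimRep (commutator G) F.E ℝ≥0 where
  act a z := if h : a ∈ L then F.act ⟨a, h⟩ z else z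
  μ a := if h : a ∈ L then Real.toNNReal (Real.exp (-χ ⟨a, h⟩)) else 1
  dist := F.dist
  pt := pt
  act_one z := by
    rw [dif_pos (one_mem L)]
    exact F.act_one z
  act_mul' a ha b hb z := by
    rw [dif_pos (mul_mem (hL ha) (hL hb)), dif_pos (hL ha), dif_pos (hL hb)]
    exact F.act_mul ⟨a, hL ha⟩ ⟨b, hL hb⟩ z
  μ_one := by
    rw [dif_pos (one_mem L)]
    have h := hχ 1 1
    rw [mul_one] at h
    have h0 : χ (1 : L) = 0 := by linarith
    have e : (⟨1, one_mem L⟩ : L) = 1 := rfl
    rw [e, h0, neg_zero, Real.exp_zero, Real.toNNReal_one]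
  μ_mul a ha b hb := by
    rw [dif_pos (mul_mem (hL ha) (hL hb)), dif_pos (hL ha), dif_pos (hL hb)]
    have e : (⟨a * b, mul_mem (hL ha) (hL hb)⟩ : L) = ⟨a, hL ha⟩ * ⟨b, hL hb⟩ := rfl
    rw [e, hχ, neg_add, Real.exp_add, Real.toNNReal_mul (Real.exp_pos _).le]
  dist_eq_zero := F.dist_eq_zero
  dist_comm := F.dist_comm
  dist_ultra := F.dist_ultra
  dist_act a ha x y := by
    rw [dif_pos (hL ha), dif_pos (hL ha), dif_pos (hL ha)]
    exact F.dist_act ⟨a, hL ha⟩ x y
  exists_fix a ha hμ := by
    rw [dif_pos (hL ha)] at hμ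
    have h0 : χ ⟨a, hL ha⟩ ≠ 0 := by
      intro h0
      apply hμ
      rw [h0, neg_zero, Real.exp_zero, Real.toNNReal_one]
    obtain ⟨x, hx⟩ := F.exists_fix ⟨a, hL ha⟩ h0
    refine ⟨x, ?_⟩
    rw [dif_pos (hL ha)]
    exact hx

open Classical in
theorem Focal.rep_act {L : Subgroup G} (hL : commutator G ≤ L) {χ : L → ℝ}
    (hχ : IsChar χ) (F : Focal L χ) (pt : F.E) (a : L) (z : F.E) :
    (F.rep hL hχ pt).act a z = F.act a z := by
  change (if h : (a : G) ∈ L then F.act ⟨a, h⟩ z else z) = F.act a z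
  rw [dif_pos a.2]

open Classical in
theorem Focal.rep_μ {L : Subgroup G} (hL : commutator G ≤ L) {χ : L → ℝ}
    (hχ : IsChar χ) (F : Focal L χ) (pt : F.E) (a : L) :
    (F.rep hL hχ pt).μ a = Real.toNNReal (Real.exp (-χ a)) := by
  change (if h : (a : G) ∈ L then Real.toNNReal (Real.exp (-χ ⟨a, h⟩)) else 1) = _
  rw [dif_pos a.2]

theorem toNNReal_exp_ne_one {x : ℝ} (hx : x ≠ 0) : Real.toNNReal (Real.exp (-x)) ≠ 1 := by
  intro h
  rw [Real.toNNReal_eq_one] at h
  rw [Real.exp_eq_one_iff] at h
  exact hx (neg_eq_zero.1 h)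

/-- **(A)** A group with a metabelian quotient whose kernel is not finitely generated. -/
theorem goalA : GoalA.{u} := by
  intro G _ _ T hT hgen N _ hcomm hN
  by_cases hG' : (commutator G).FG
  swap
  · exact Pool.Agent.Helper11.Gap.big_of_not_fg hT hgen hG'
  have hGfg : Group.FG G := ⟨⟨T, hgen⟩⟩
  set L : Subgroup G := N ⊔ commutator G with hLdef
  have hL : commutator G ≤ L := le_sup_right
  have hNL : N ≤ L := le_sup_left
  have hLfg : Group.FG L := (Group.fg_iff_subgroup_fg L).2 (fg_of_commutator_le hG' L hL)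
  have hcomm' : commutator L ≤ N.subgroupOf L := by
    rw [commutator_def, Subgroup.commutator_le]
    intro a _ b _
    rw [Subgroup.mem_subgroupOf]
    exact hcomm (Subgroup.commutator_mem_commutator a.2 b.2)
  have hN' : ¬ (N.subgroupOf L).FG := by
    intro h
    apply hN
    have h2 : Group.FG (N.subgroupOf L) := (Group.fg_iff_subgroup_fg _).2 h
    have h3 : Group.FG N :=
      Group.fg_of_surjective (f := (Subgroup.subgroupOfEquivOfLe hNL).toMonoidHom)
        (Subgroup.subgroupOfEquivOfLe hNL).surjective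
    exact (Group.fg_iff_subgroup_fg _).1 h3
  obtain ⟨χ, hχ, hχN, ⟨g, hg⟩, ⟨F⟩⟩ := kernels L (N.subgroupOf L) hcomm' hN'
  obtain ⟨pt, hpt⟩ := F.exists_fix g hg
  -- the character does not vanish on the derived subgroup
  have H1 : ∃ n : L, (n : G) ∈ commutator G ∧ χ n ≠ 0 := by
    obtain ⟨y, hy, z, hz, hyz⟩ := Subgroup.mem_sup_of_normal_left.1 (show (g : G) ∈
      N ⊔ commutator G from g.2)
    refine ⟨⟨z, hL hz⟩, hz, ?_⟩
    have e : g = ⟨y, hNL hy⟩ * ⟨z, hL hz⟩ := Subtype.ext hyz.symm
    have h0 : χ ⟨y, hNL hy⟩ = 0 := hχN _ (Subgroup.mem_subgroupOf.2 hy)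
    rw [e, hχ, h0, zero_add] at hg
    exact hg
  obtain ⟨n, hn, hnχ⟩ := H1
  refine goalDyn G T hT hgen F.E (F.rep hL hχ pt) ⟨n, hn, ?_⟩ ?_
  · rw [F.rep_μ]
    exact toNNReal_exp_ne_one hnχ
  · intro z
    by_contra hfix
    have hfix' : ∀ m : L, (m : G) ∈ commutator G → F.act m z = z := by
      intro m hm
      by_contra h
      exact hfix ⟨m, hm, by rw [F.rep_act]; exact h⟩
    obtain ⟨a, ha⟩ := F.nofix z
    apply ha
    -- `a z` is fixed by `a n a⁻¹`, and so is `z`
    have hm : ((a * n * a⁻¹ : L) : G) ∈ commutator G := by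
      have := (inferInstance : (commutator G).Normal).conj_mem n hn a
      exact this
    have h1 : F.act (a * n * a⁻¹) z = z := hfix' _ hm
    have h2 : F.act (a * n * a⁻¹) (F.act a z) = F.act a z := by
      rw [← F.act_mul]
      have e : a * n * a⁻¹ * a = a * n := by group
      rw [e, F.act_mul, hfix' n hn]
    by_contra hne
    have h3 := F.dist_act (a * n * a⁻¹) (F.act a z) z
    rw [h1, h2] at h3
    have h4 : F.dist (F.act a z) z ≠ 0 := fun h => hne ((F.dist_eq_zero _ _).1 h)
    have h5 : Real.toNNReal (Real.exp (-χ (a * n * a⁻¹))) = 1 :=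
      mul_right_cancel₀ h4 (by rw [one_mul]; exact h3.symm)
    have h6 : χ (a * n * a⁻¹) = χ n := by
      have h7 := hχ (a * n * a⁻¹) a
      have e : a * n * a⁻¹ * a = a * n := by group
      rw [e, hχ] at h7
      linarith
    rw [h6] at h5
    exact toNNReal_exp_ne_one hnχ h5

end Pool.Agent.Helper46.RO
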