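import Pool.Agent.Helper46.RO.Defs

/-!
# Basic lemmas on connectivity
-/

namespace Pool.Agent.Helper46.RO

open scoped NNReal

universe u

variable {L : Type u} [Group L] {X : Finset L} {P P' : Set L} {χ : L → ℝ}

theorem Conn.refl (g : L) : Conn X P g g := Relation.ReflTransGen.refl

theorem Conn.trans {g h k : L} (h1 : Conn X P g h) (h2 : Conn X P h k) : Conn X P g k :=
  Relation.ReflTransGen.trans h1 h2

theorem Conn.single {g h : L} (hg : g ∈ P) (hh : h ∈ P) (hx : g⁻¹ * h ∈ X) : Conn X P g h :=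
  Relation.ReflTransGen.single ⟨hg, hh, hx⟩

theorem Conn.step {g x : L} (hx : x ∈ X) (hg : g ∈ P) (hh : g * x ∈ P) : Conn X P g (g * x) :=
  Conn.single hg hh (by rw [inv_mul_cancel_left]; exact hx)

theorem Conn.symm (hX : SymGen X) {g h : L} (h1 : Conn X P g h) : Conn X P h g := by
  induction h1 with
  | refl => exact Conn.refl _
  | @tail b c _ hbc ih =>
    refine Conn.trans (Conn.single hbc.2.1 hbc.1 ?_) ih
    have := hX.1 _ hbc.2.2
    rwa [mul_inv_rev, inv_inv] at this

theorem Conn.mono {g h : L} (h1 : Conn X P g h) (hP : P ⊆ P') : Conn X P' g h := by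
  induction h1 with
  | refl => exact Conn.refl _
  | @tail b c _ hbc ih =>
    exact ih.trans (Conn.single (hP hbc.1) (hP hbc.2.1) hbc.2.2)

/-- Left translation. -/
theorem Conn.smul (a : L) {g h : L} (h1 : Conn X P g h) :
    Conn X {k | a⁻¹ * k ∈ P} (a * g) (a * h) := by
  induction h1 with
  | refl => exact Conn.refl _
  | @tail b c _ hbc ih =>
    refine ih.trans (Conn.single ?_ ?_ ?_)
    · change a⁻¹ * (a * b) ∈ P
      rw [inv_mul_cancel_left]; exact hbc.1
    · change a⁻¹ * (a * c) ∈ P
      rw [inv_mul_cancel_left]; exact hbc.2.1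
    · have e : (a * b)⁻¹ * (a * c) = b⁻¹ * c := by group
      rw [e]; exact hbc.2.2

/-- Left translation, in the form `P` to `Q`. -/
theorem Conn.translate (a : L) {g h : L} (h1 : Conn X P g h) (hQ : ∀ k ∈ P, a * k ∈ P') :
    Conn X P' (a * g) (a * h) :=
  (h1.smul a).mono (fun k hk => by
    have := hQ _ hk
    rwa [mul_inv_cancel_left] at this)

/-- The endpoint of a path lies in the set if the starting point does. -/
theorem Conn.mem {g h : L} (hg : g ∈ P) (h1 : Conn X P g h) : h ∈ P := by
  induction h1 with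
  | refl => exact hg
  | tail _ hbc _ => exact hbc.2.1

theorem IsChar.one (hχ : IsChar χ) : χ 1 = 0 := by
  have h := hχ 1 1
  rw [mul_one] at h
  linarith

theorem IsChar.inv (hχ : IsChar χ) (a : L) : χ a⁻¹ = -χ a := by
  have h := hχ a a⁻¹
  rw [mul_inv_cancel, hχ.one] at h
  linarith

theorem IsChar.pow (hχ : IsChar χ) (a : L) (k : ℕ) : χ (a ^ k) = k * χ a := by
  induction k with
  | zero => simp [hχ.one]
  | succ k ih => rw [pow_succ, hχ, ih]; push_cast; ring

/-- Translation of superlevel sets. -/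
theorem Conn.up_translate (hχ : IsChar χ) (a : L) {g h : L} {s : ℝ} (h1 : Conn X (up χ s) g h) :
    Conn X (up χ (s + χ a)) (a * g) (a * h) := by
  refine h1.translate a ?_
  intro k hk
  change s + χ a ≤ χ (a * k)
  rw [hχ]
  have : s ≤ χ k := hk
  linarith

/-- Everything is connected, along a finite set. -/
theorem exists_conn_finset (hX : SymGen X) (g h : L) :
    ∃ F : Finset L, g ∈ F ∧ h ∈ F ∧ Conn X (F : Set L) g h := by
  classical
  have key : ∀ k ∈ Subgroup.closure (X : Set L), ∀ g : L, ∃ F : Finset L, g ∈ F ∧ g * k ∈ F ∧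
      Conn X (F : Set L) g (g * k) := by
    intro k hk
    induction hk using Subgroup.closure_induction with
    | mem x hx =>
      intro g
      refine ⟨{g, g * x}, by simp, by simp, ?_⟩
      exact Conn.step hx (by simp) (by simp)
    | one =>
      intro g
      exact ⟨{g}, by simp, by simp, by rw [mul_one]; exact Conn.refl _⟩
    | mul x y _ _ hx hy =>
      intro g
      obtain ⟨F, h1, h2, h3⟩ := hx g
      obtain ⟨F', h1', h2', h3'⟩ := hy (g * x)
      refine ⟨F ∪ F', Finset.mem_union_left _ h1, ?_, ?_⟩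
      · rw [← mul_assoc]; exact Finset.mem_union_right _ h2'
      · rw [← mul_assoc]
        refine Conn.trans (h3.mono ?_) (h3'.mono ?_)
        · intro z hz; exact Finset.mem_coe.2 (Finset.mem_union_left _ (Finset.mem_coe.1 hz))
        · intro z hz; exact Finset.mem_coe.2 (Finset.mem_union_right _ (Finset.mem_coe.1 hz))
    | inv x _ hx =>
      intro g
      obtain ⟨F, h1, h2, h3⟩ := hx (g * x⁻¹)
      rw [inv_mul_cancel_right] at h2 h3
      exact ⟨F, h2, h1, h3.symm hX⟩
  obtain ⟨F, h1, h2, h3⟩ := key (g⁻¹ * h) (by rw [hX.2]; exact Subgroup.mem_top _) g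
  rw [mul_inv_cancel_left] at h2 h3
  exact ⟨F, h1, h2, h3⟩

/-- Any two elements are connected above some level (for any real function). -/
theorem exists_level (hX : SymGen X) (χ : L → ℝ) (g h : L) :
    ∃ s : ℝ, g ∈ up χ s ∧ h ∈ up χ s ∧ Conn X (up χ s) g h := by
  classical
  obtain ⟨F, h1, h2, h3⟩ := exists_conn_finset hX g h
  have hne : F.Nonempty := ⟨g, h1⟩
  have hinf : ∀ k ∈ F, F.inf' hne χ ≤ χ k := fun k hk => Finset.inf'_le χ hk
  exact ⟨F.inf' hne χ, hinf g h1, hinf h h2, h3.mono (fun k hk => hinf k (Finset.mem_coe.1 hk))⟩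

/-- Connectivity is witnessed by a finite set. -/
theorem Conn.exists_finset {g h : L} (h1 : Conn X P g h) :
    ∃ F : Finset L, (∀ k ∈ F, k ∈ P) ∧ Conn X (F : Set L) g h := by
  classical
  induction h1 with
  | refl => exact ⟨∅, by simp, Conn.refl _⟩
  | @tail b c _ hbc ih =>
    obtain ⟨F, hF, hc⟩ := ih
    refine ⟨F ∪ {b, c}, ?_, ?_⟩
    · intro k hk
      rw [Finset.mem_union, Finset.mem_insert, Finset.mem_singleton] at hk
      rcases hk with hk | rfl | rfl
      · exact hF k hk
      · exact hbc.1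
      · exact hbc.2.1
    · refine Conn.trans (hc.mono ?_) (Conn.single (by simp) (by simp) hbc.2.2)
      intro z hz
      exact Finset.mem_coe.2 (Finset.mem_union_left _ (Finset.mem_coe.1 hz))

end Pool.Agent.Helper46.RO
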