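import Mathlib

/-!
# Definitions and goals: ends of characters and finite generation of kernels
-/

namespace Pool.Agent.Helper46.RO

open scoped NNReal

universe u

section defs

variable {L : Type u} [Group L]

/-- `h` can be reached from `g` by steps in `X` inside `P`. -/
def Conn (X : Finset L) (P : Set L) (g h : L) : Prop :=
  Relation.ReflTransGen (fun a b => a ∈ P ∧ b ∈ P ∧ a⁻¹ * b ∈ X) g h

/-- `X` is symmetric and generates the group. -/
def SymGen (X : Finset L) : Prop :=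
  (∀ x ∈ X, x⁻¹ ∈ X) ∧ Subgroup.closure (X : Set L) = ⊤

/-- Additive characters. -/
def IsChar (χ : L → ℝ) : Prop := ∀ a b, χ (a * b) = χ a + χ b

/-- Superlevel sets. -/
def up (χ : L → ℝ) (s : ℝ) : Set L := {g | s ≤ χ g}

/-- Ends: decreasing families of components of superlevel sets. -/
def IsEnd (X : Finset L) (χ : L → ℝ) (C : ℝ → Set L) : Prop :=
  (∀ s, ∃ g ∈ up χ s, C s = {h | h ∈ up χ s ∧ Conn X (up χ s) g h}) ∧
    ∀ s s', s ≤ s' → C s' ⊆ C s

/-- The action on families of subsets. -/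
def actF (χ : L → ℝ) (g : L) (C : ℝ → Set L) : ℝ → Set L :=
  fun s => {h | g⁻¹ * h ∈ C (s - χ g)}

/-- The level up to which two families agree. -/
noncomputable def lev (C C' : ℝ → Set L) : ℝ := sSup {s | C s = C' s}

open Classical in
/-- The distance. -/
noncomputable def distF (C C' : ℝ → Set L) : ℝ≥0 :=
  if C = C' then 0 else Real.toNNReal (Real.exp (-(lev C C')))

/-- Any two points above `s` are connected above `s - c`. -/
def Lag (X : Finset L) (χ : L → ℝ) : Prop :=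
  ∃ c : ℝ, ∀ s : ℝ, ∀ g ∈ up χ s, ∀ h ∈ up χ s, Conn X (up χ (s - c)) g h

/-- The pushing property. -/
def Margin (X : Finset L) (χ : L → ℝ) : Prop :=
  ∃ x₀ ∈ X, 0 < χ x₀ ∧ ∃ m : ℕ, ∀ x ∈ X,
    Conn X {h | max 0 (χ x) < χ h} (x₀ ^ m) (x * x₀ ^ m)

/-- Homomorphisms to `ℤ^n`. -/
def IsHomZ {n : ℕ} (π : L → Fin n → ℤ) : Prop := ∀ a b, π (a * b) = π a + π b

/-- The character of a vector. -/
def chr {n : ℕ} (π : L → Fin n → ℤ) (w : Fin n → ℝ) (g : L) : ℝ := ∑ i, w i * (π g i : ℝ)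

/-- The square of the Euclidean norm. -/
def nrm {n : ℕ} (v : Fin n → ℤ) : ℤ := ∑ i, v i ^ 2

/-- A uniform version of `Margin`: the witness consists of a letter, an exponent and a finite set
of vertices. -/
def Good {n : ℕ} (X : Finset L) (π : L → Fin n → ℤ) (w : Fin n → ℝ) (δ : ℝ)
    (W : L × ℕ × Finset L) : Prop :=
  W.1 ∈ X ∧ δ ≤ chr π w W.1 ∧ ∀ x ∈ X,
    Conn X {h | h ∈ W.2.2 ∧ max 0 (chr π w x) + δ ≤ chr π w h} (W.1 ^ W.2.1) (x * W.1 ^ W.2.1)

/-- The uniform pushing property. -/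
def Unif {n : ℕ} (X : Finset L) (π : L → Fin n → ℤ) : Prop :=
  ∃ (𝒲 : Finset (L × ℕ × Finset L)) (δ : ℝ), 0 < δ ∧
    ∀ w : Fin n → ℝ, ∑ i, w i ^ 2 = 1 → ∃ W ∈ 𝒲, Good X π w δ W

/-- The kernel. -/
def kerZ {n : ℕ} (π : L → Fin n → ℤ) (hπ : IsHomZ π) : Subgroup L where
  carrier := {g | π g = 0}
  one_mem' := by
    have h := hπ 1 1
    rw [mul_one] at h
    exact left_eq_add.1 h
  mul_mem' := by
    intro a b ha hb
    change π (a * b) = 0
    rw [hπ, ha, hb, add_zero]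
  inv_mem' := by
    intro a ha
    have h1 : π 1 = 0 := by
      have h := hπ 1 1
      rw [mul_one] at h
      exact left_eq_add.1 h
    have h2 := hπ a a⁻¹
    rw [mul_inv_cancel, h1, ha, zero_add] at h2
    exact h2.symm

end defs

/-- A focal action: `L` acts by similarities with ratio `exp (-χ)` on an ultrametric space, without
global fixed point, and every element with `χ ≠ 0` has a fixed point. -/
structure Focal (L : Type u) [Group L] (χ : L → ℝ) where
  E : Type u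
  act : L → E → E
  dist : E → E → ℝ≥0
  act_one : ∀ z, act 1 z = z
  act_mul : ∀ a b z, act (a * b) z = act a (act b z)
  dist_eq_zero : ∀ x y, dist x y = 0 ↔ x = y
  dist_comm : ∀ x y, dist x y = dist y x
  dist_ultra : ∀ x y z, dist x z ≤ max (dist x y) (dist y z)
  dist_act : ∀ a x y, dist (act a x) (act a y) = Real.toNNReal (Real.exp (-χ a)) * dist x y
  exists_fix : ∀ a, χ a ≠ 0 → ∃ x, act a x = x
  nofix : ∀ x, ∃ a, act a x ≠ x

/-- The action of a group element maps ends to ends; it is an action. -/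
def GoalE2 : Prop := ∀ (L : Type u) [Group L] (X : Finset L) (χ : L → ℝ), SymGen X → IsChar χ →
  (∀ g C, IsEnd X χ C → IsEnd X χ (actF χ g C)) ∧ (∀ C, actF χ 1 C = C) ∧
  (∀ a b C, actF χ (a * b) C = actF χ a (actF χ b C))

/-- Two different ends agree exactly up to a finite level. -/
def GoalE3 : Prop := ∀ (L : Type u) [Group L] (X : Finset L) (χ : L → ℝ), SymGen X → IsChar χ →
  ∀ C C', IsEnd X χ C → IsEnd X χ C' →
    (∀ s s', s ≤ s' → C s' = C' s' → C s = C' s) ∧ {s | C s = C' s}.Nonempty ∧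
    (C ≠ C' → BddAbove {s | C s = C' s})

/-- The distance is an ultrametric and the action is by similarities (E3 as a hypothesis). -/
def GoalE4 : Prop := ∀ (L : Type u) [Group L] (X : Finset L) (χ : L → ℝ), SymGen X → IsChar χ →
  (∀ C C', distF (L := L) C C' = 0 ↔ C = C') ∧ (∀ C C', distF (L := L) C C' = distF C' C) ∧
  (∀ C C' C'', IsEnd X χ C → IsEnd X χ C' → IsEnd X χ C'' →
    distF C C'' ≤ max (distF C C') (distF C' C'')) ∧
  (∀ g C C', IsEnd X χ C → IsEnd X χ C' →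
    distF (actF χ g C) (actF χ g C') = Real.toNNReal (Real.exp (-χ g)) * distF C C')

/-- Elements with `χ ≠ 0` fix an end. -/
def GoalE5 : Prop := ∀ (L : Type u) [Group L] (X : Finset L) (χ : L → ℝ), SymGen X → IsChar χ →
  ∀ g, χ g ≠ 0 → ∃ C, IsEnd X χ C ∧ actF χ g C = C

/-- A global fixed end gives a lag. -/
def GoalE6 : Prop := ∀ (L : Type u) [Group L] (X : Finset L) (χ : L → ℝ), SymGen X → IsChar χ →
  ∀ C, IsEnd X χ C → (∀ g, actF χ g C = C) → Lag X χ

/-- A lag gives the pushing property. -/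
def GoalE7 : Prop := ∀ (L : Type u) [Group L] (X : Finset L) (χ : L → ℝ), SymGen X → IsChar χ →
  (∃ g, χ g ≠ 0) → Lag X χ → Margin X χ

/-- Compactness of the sphere. -/
def GoalP1 : Prop := ∀ (L : Type u) [Group L] (X : Finset L) (n : ℕ) (π : L → Fin n → ℤ),
  SymGen X → IsHomZ π → (∀ w : Fin n → ℝ, w ≠ 0 → Margin X (chr π w)) → Unif X π

/-- One step of pushing. -/
def GoalP2 : Prop := ∀ (L : Type u) [Group L] (X : Finset L) (n : ℕ) (π : L → Fin n → ℤ),
  SymGen X → IsHomZ π → Unif X π → ∃ R : ℤ, ∀ K, R ≤ K → ∀ g h, nrm (π g) ≤ K → nrm (π h) ≤ K →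
    Conn X {k | nrm (π k) ≤ K + 1} g h → Conn X {k | nrm (π k) ≤ K} g h

/-- A connected bounded slab gives finite generation. -/
def GoalP3 : Prop := ∀ (L : Type u) [Group L] (X : Finset L) (n : ℕ) (π : L → Fin n → ℤ)
  (hπ : IsHomZ π), SymGen X →
  (∃ R : ℤ, ∀ K, R ≤ K → ∀ g h, nrm (π g) ≤ K → nrm (π h) ≤ K →
    Conn X {k | nrm (π k) ≤ K + 1} g h → Conn X {k | nrm (π k) ≤ K} g h) → (kerZ π hπ).FG

/-- Reduction to free abelian quotients. -/
def GoalA1 : Prop := ∀ (L : Type u) [Group L] [Group.FG L] (N : Subgroup L) [N.Normal],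
  commutator L ≤ N → ∃ (n : ℕ) (π : L → Fin n → ℤ) (hπ : IsHomZ π), Function.Surjective π ∧
    N ≤ kerZ π hπ ∧ ((kerZ π hπ).FG → N.FG)

/-- The theorem on kernels. -/
def GoalA2 : Prop := ∀ (L : Type u) [Group L] [Group.FG L] (N : Subgroup L) [N.Normal],
  commutator L ≤ N → ¬ N.FG → ∃ χ : L → ℝ, IsChar χ ∧ (∀ g ∈ N, χ g = 0) ∧ (∃ g, χ g ≠ 0) ∧
    Nonempty (Focal L χ)

end Pool.Agent.Helper46.RO
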