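import Pool.Agent.Helper46.RO.Goals2
import Pool.Agent.Helper29.RO.A2
import Pool.Agent.Helper47.RO.P1
import Pool.Agent.Helper10.RO.P2
import Pool.Agent.Helper75.RO.P3
import Pool.Agent.Helper62.RO.A1
import Pool.Agent.Helper9.RO.E7

/-!
# A kernel that is not finitely generated gives a character without lag
-/

namespace Pool.Agent.Helper46.RO

universe u

/-- A non-trivial character vanishing on `N`, without lag, if `N` is not finitely generated. -/
theorem N1 : GoalN1.{u} := by
  intro L _ _ N _ hN hnfg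
  obtain ⟨n, π, hπ, hsurj, hle, hfg⟩ := Pool.Agent.Helper62.RO.A1 L N hN
  obtain ⟨X, hX⟩ := Pool.Agent.Helper29.RO.exists_symGen L
  have hk : ¬ (kerZ π hπ).FG := fun h => hnfg (hfg h)
  have hU : ¬ Unif X π := fun h => hk (Pool.Agent.Helper75.RO.P3 L X n π hπ hX
    (Pool.Agent.Helper10.RO.P2 L X n π hX hπ h))
  have hw : ∃ w : Fin n → ℝ, w ≠ 0 ∧ ¬ Margin X (chr π w) := by
    by_contra h
    apply hU
    apply Pool.Agent.Helper47.RO.P1 L X n π hX hπ
    intro w hw0
    by_contra hm
    exact h ⟨w, hw0, hm⟩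
  obtain ⟨w, hw0, hmargin⟩ := hw
  have hχ : IsChar (chr π w) := Pool.Agent.Helper29.RO.isChar_chr hπ w
  have hN0 : ∀ g ∈ N, chr π w g = 0 := by
    intro g hg
    have h0 : π g = 0 := hle hg
    unfold chr
    rw [h0]
    simp
  have hne : ∃ g, chr π w g ≠ 0 := by
    obtain ⟨i, hi⟩ := Function.ne_iff.1 hw0
    obtain ⟨g, hg⟩ := hsurj (Pi.single i 1)
    refine ⟨g, ?_⟩
    have : chr π w g = w i := by
      unfold chr
      rw [hg, Finset.sum_eq_single i]
      · simp
      · intro j _ hj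
        rw [Pi.single_eq_of_ne hj]
        simp
      · intro h; exact absurd (Finset.mem_univ i) h
    rw [this]
    exact hi
  have hlag : ¬ Lag X (chr π w) := fun h =>
    hmargin (Pool.Agent.Helper9.RO.E7 L X (chr π w) hX hχ hne h)
  exact ⟨X, chr π w, hX, hχ, hN0, hne, hlag⟩

end Pool.Agent.Helper46.RO
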