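import Mathlib

/-!
# Actions of a subgroup by similarities of an ultrametric space
-/

namespace Pool.Agent.Helper46.RO

variable {G : Type*} [Group G] {E : Type*}
variable {Γ₀ : Type*} [LinearOrderedCommGroupWithZero Γ₀]

/-- An action of the subgroup `N` by similarities on an ultrametric space. The functions are
defined on `G`, only their values on `N` matter. Elements of ratio `≠ 1` have a fixed point. -/
structure SimRep (N : Subgroup G) (E : Type*) (Γ₀ : Type*) [LinearOrderedCommGroupWithZero Γ₀]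
    where
  act : G → E → E
  μ : G → Γ₀
  dist : E → E → Γ₀
  pt : E
  act_one : ∀ z, act 1 z = z
  act_mul' : ∀ a ∈ N, ∀ b ∈ N, ∀ z, act (a * b) z = act a (act b z)
  μ_one : μ 1 = 1
  μ_mul : ∀ a ∈ N, ∀ b ∈ N, μ (a * b) = μ a * μ b
  dist_eq_zero : ∀ x y, dist x y = 0 ↔ x = y
  dist_comm : ∀ x y, dist x y = dist y x
  dist_ultra : ∀ x y z, dist x z ≤ max (dist x y) (dist y z)
  dist_act : ∀ a ∈ N, ∀ x y, dist (act a x) (act a y) = μ a * dist x y
  exists_fix : ∀ a ∈ N, μ a ≠ 1 → ∃ x, act a x = x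

namespace SimRep

variable {N : Subgroup G} (R : SimRep N E Γ₀)

theorem act_mul {a b : G} (ha : a ∈ N) (hb : b ∈ N) (z : E) :
    R.act (a * b) z = R.act a (R.act b z) := R.act_mul' a ha b hb z

theorem μ_mul_inv {a : G} (ha : a ∈ N) : R.μ a * R.μ a⁻¹ = 1 := by
  rw [← R.μ_mul a ha a⁻¹ (N.inv_mem ha), mul_inv_cancel, R.μ_one]

theorem μ_ne_zero {a : G} (ha : a ∈ N) : R.μ a ≠ 0 := by
  intro h
  have := R.μ_mul_inv ha
  rw [h, zero_mul] at this
  exact zero_ne_one this

theorem μ_inv {a : G} (ha : a ∈ N) : R.μ a⁻¹ = (R.μ a)⁻¹ :=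
  eq_inv_of_mul_eq_one_right (R.μ_mul_inv ha)

theorem act_inv_act {a : G} (ha : a ∈ N) (z : E) : R.act a⁻¹ (R.act a z) = z := by
  rw [← R.act_mul (N.inv_mem ha) ha, inv_mul_cancel, R.act_one]

theorem act_act_inv {a : G} (ha : a ∈ N) (z : E) : R.act a (R.act a⁻¹ z) = z := by
  rw [← R.act_mul ha (N.inv_mem ha), mul_inv_cancel, R.act_one]

theorem act_injective {a : G} (ha : a ∈ N) : Function.Injective (R.act a) :=
  Function.LeftInverse.injective (R.act_inv_act ha)

/-- Fixing a point passes to inverses. -/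
theorem fix_inv {a : G} (ha : a ∈ N) {z : E} (h : R.act a z = z) : R.act a⁻¹ z = z := by
  conv_lhs => rw [← h]
  exact R.act_inv_act ha z

theorem fix_mul {a b : G} (ha : a ∈ N) (hb : b ∈ N) {z : E} (h : R.act a z = z)
    (h' : R.act b z = z) : R.act (a * b) z = z := by
  rw [R.act_mul ha hb, h', h]

theorem dist_self (x : E) : R.dist x x = 0 := (R.dist_eq_zero x x).2 rfl

theorem dist_ne_zero {x y : E} (h : x ≠ y) : R.dist x y ≠ 0 := fun h0 =>
  h ((R.dist_eq_zero x y).1 h0)

/-- A map with ratio `≠ 1` has at most one fixed point. -/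
theorem fix_unique {a : G} (ha : a ∈ N) (hμ : R.μ a ≠ 1) {z w : E} (hz : R.act a z = z)
    (hw : R.act a w = w) : z = w := by
  by_contra hne
  have h := R.dist_act a ha z w
  rw [hz, hw] at h
  have h0 := R.dist_ne_zero hne
  exact hμ (mul_right_cancel₀ h0 (by rw [one_mul]; exact h.symm))

open Classical in
/-- The fixed point. -/
noncomputable def ctr (a : G) : E := if h : ∃ x, R.act a x = x then h.choose else R.pt

theorem act_ctr {a : G} (ha : a ∈ N) (hμ : R.μ a ≠ 1) : R.act a (R.ctr a) = R.ctr a := by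
  have h := R.exists_fix a ha hμ
  rw [ctr, dif_pos h]
  exact h.choose_spec

theorem eq_ctr {a : G} (ha : a ∈ N) (hμ : R.μ a ≠ 1) {z : E} (hz : R.act a z = z) :
    z = R.ctr a :=
  R.fix_unique ha hμ hz (R.act_ctr ha hμ)

/-- The representation conjugated by `h`: `n` acts as `h⁻¹ n h`. -/
def at' (R : SimRep N E Γ₀) [hN : N.Normal] (h : G) : SimRep N E Γ₀ where
  act a := R.act (h⁻¹ * a * h)
  μ a := R.μ (h⁻¹ * a * h)
  dist := R.dist
  pt := R.pt
  act_one z := by
    have e : h⁻¹ * 1 * h = 1 := by group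
    rw [e, R.act_one]
  act_mul' a ha b hb z := by
    have e : h⁻¹ * (a * b) * h = (h⁻¹ * a * h) * (h⁻¹ * b * h) := by group
    have h1 := hN.conj_mem a ha h⁻¹
    have h2 := hN.conj_mem b hb h⁻¹
    rw [inv_inv] at h1 h2
    rw [e, R.act_mul h1 h2]
  μ_one := by
    have e : h⁻¹ * 1 * h = 1 := by group
    rw [e, R.μ_one]
  μ_mul a ha b hb := by
    have e : h⁻¹ * (a * b) * h = (h⁻¹ * a * h) * (h⁻¹ * b * h) := by group
    have h1 := hN.conj_mem a ha h⁻¹
    have h2 := hN.conj_mem b hb h⁻¹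
    rw [inv_inv] at h1 h2
    rw [e, R.μ_mul _ h1 _ h2]
  dist_eq_zero := R.dist_eq_zero
  dist_comm := R.dist_comm
  dist_ultra := R.dist_ultra
  dist_act a ha x y := by
    have h1 := hN.conj_mem a ha h⁻¹
    rw [inv_inv] at h1
    exact R.dist_act _ h1 x y
  exists_fix a ha hμ := by
    have h1 := hN.conj_mem a ha h⁻¹
    rw [inv_inv] at h1
    exact R.exists_fix _ h1 hμ

variable [hN : N.Normal]

theorem at'_μ (h a : G) : (R.at' h).μ a = R.μ (h⁻¹ * a * h) := rfl

theorem at'_act (h a : G) (z : E) : (R.at' h).act a z = R.act (h⁻¹ * a * h) z := rfl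

/-- Moving the place: conjugating the element by `k` is the same as moving the place. -/
theorem at'_conj_act (h k a : G) (z : E) :
    (R.at' h).act (k⁻¹ * a * k) z = (R.at' (k * h)).act a z := by
  rw [at'_act, at'_act]
  congr 1
  group

theorem at'_conj_μ (h k a : G) :
    (R.at' h).μ (k⁻¹ * a * k) = (R.at' (k * h)).μ a := by
  rw [at'_μ, at'_μ]
  congr 1
  group

omit hN in
/-- `μ` is invariant under conjugation by elements of `N`. -/
theorem μ_conj {a n : G} (ha : a ∈ N) (hn : n ∈ N) : R.μ (n⁻¹ * a * n) = R.μ a := by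
  rw [R.μ_mul _ (N.mul_mem (N.inv_mem hn) ha) _ hn, R.μ_mul _ (N.inv_mem hn) _ ha, R.μ_inv hn]
  have := R.μ_ne_zero hn
  rw [mul_comm (R.μ n)⁻¹ (R.μ a), mul_assoc, inv_mul_cancel₀ this, mul_one]

/-- `(R.at' h).μ` only depends on `h` modulo `N`. -/
theorem at'_μ_mul_mem (h n : G) (hn : n ∈ N) {a : G} (ha : a ∈ N) :
    (R.at' (h * n)).μ a = (R.at' h).μ a := by
  rw [at'_μ, at'_μ]
  have h1 := hN.conj_mem a ha h⁻¹
  rw [inv_inv] at h1
  have e : (h * n)⁻¹ * a * (h * n) = n⁻¹ * (h⁻¹ * a * h) * n := by group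
  rw [e, R.μ_conj h1 hn]

end SimRep

section decode

variable {N : Subgroup G} (R : SimRep N E Γ₀)

theorem mul_lt_self' {x r : Γ₀} (hx : x < 1) (hr : r ≠ 0) : x * r < r := by
  have hr' : (0 : Γ₀) < r := zero_lt_iff.2 hr
  calc x * r < 1 * r := mul_lt_mul_of_pos_right hx hr'
    _ = r := one_mul r

/-- Different sides of an isosceles triangle. -/
theorem dist_eq_of_lt {x y z : E} (h : R.dist x y < R.dist y z) : R.dist x z = R.dist y z := by
  apply le_antisymm
  · refine (R.dist_ultra x y z).trans (max_le h.le le_rfl)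
  · have h1 := R.dist_ultra y x z
    rw [R.dist_comm y x] at h1
    rcases le_max_iff.1 h1 with h2 | h2
    · exact absurd h (not_lt.2 h2)
    · exact h2

theorem prod_mem {ι : Type*} (e : ι → G) (he : ∀ j, e j ∈ N) (L : List ι) :
    (L.map e).prod ∈ N := by
  apply Subgroup.list_prod_mem
  intro x hx
  rw [List.mem_map] at hx
  obtain ⟨p, _, rfl⟩ := hx
  exact he p

end decode

end Pool.Agent.Helper46.RO
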